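import Pool.Agent.H.MP_9b0338_al.C

set_option autoImplicit false

namespace Pool.Agent.H.MP_9b0338_al

@[ext]
structure Md {R : Type} [CommRing R] (x y : Rˣ) where
  i : ℤ
  j : ℤ
  r : R

def mon {R : Type} [CommRing R] (x y : Rˣ) (i j : ℤ) : R := ((x ^ i * y ^ j : Rˣ) : R)

section
variable {R : Type} [CommRing R] {x y : Rˣ}

theorem mon_add (i j i' j' : ℤ) : mon x y (i + i') (j + j') = mon x y i j * mon x y i' j' := by
  unfold mon
  rw [← Units.val_mul, zpow_add, zpow_add, mul_mul_mul_comm]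

theorem mon_zero : mon x y 0 0 = 1 := by simp [mon]

instance : Mul (Md x y) := ⟨fun u v => ⟨u.i + v.i, u.j + v.j, u.r + mon x y u.i u.j * v.r⟩⟩
instance : One (Md x y) := ⟨⟨0, 0, 0⟩⟩
instance : Inv (Md x y) := ⟨fun u => ⟨-u.i, -u.j, -(mon x y (-u.i) (-u.j) * u.r)⟩⟩

@[simp] theorem mul_i (u v : Md x y) : (u * v).i = u.i + v.i := rfl
@[simp] theorem mul_j (u v : Md x y) : (u * v).j = u.j + v.j := rfl
@[simp] theorem mul_r (u v : Md x y) : (u * v).r = u.r + mon x y u.i u.j * v.r := rfl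
@[simp] theorem one_i : (1 : Md x y).i = 0 := rfl
@[simp] theorem one_j : (1 : Md x y).j = 0 := rfl
@[simp] theorem one_r : (1 : Md x y).r = 0 := rfl
@[simp] theorem inv_i (u : Md x y) : (u⁻¹).i = -u.i := rfl
@[simp] theorem inv_j (u : Md x y) : (u⁻¹).j = -u.j := rfl
@[simp] theorem inv_r (u : Md x y) : (u⁻¹).r = -(mon x y (-u.i) (-u.j) * u.r) := rfl

instance : Group (Md x y) := Group.ofLeftAxioms
  (by
    intro u v w
    ext
    · simp [add_assoc]
    · simp [add_assoc]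
    · simp only [mul_r, mul_i, mul_j, mon_add]; ring)
  (by intro u; ext <;> simp [mon_zero])
  (by intro u; ext <;> simp)

theorem zpow_t (n : ℤ) : (⟨1, 0, 0⟩ : Md x y) ^ n = ⟨n, 0, 0⟩ := by
  induction n using Int.induction_on with
  | zero => rfl
  | succ n ih => rw [zpow_add_one, ih]; ext <;> simp
  | pred n ih => rw [zpow_sub_one, ih]; ext <;> simp [sub_eq_add_neg]

theorem zpow_s (n : ℤ) : (⟨0, 1, 0⟩ : Md x y) ^ n = ⟨0, n, 0⟩ := by
  induction n using Int.induction_on with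
  | zero => rfl
  | succ n ih => rw [zpow_add_one, ih]; ext <;> simp
  | pred n ih => rw [zpow_sub_one, ih]; ext <;> simp [sub_eq_add_neg]

theorem md_bau (h2 : (1 : R) + 1 = 0) (hxy : (y : R) = 1 + x) :
    Bau (⟨0, 0, 1⟩ : Md x y) ⟨0, 1, 0⟩ ⟨1, 0, 0⟩ where
  aa := by ext <;> simp [mon_zero, h2]
  st := by unfold Commute SemiconjBy; ext <;> simp
  c1 := by unfold Commute SemiconjBy; ext <;> simp [mon_zero, add_comm]
  sa := by ext <;> simp [mon, hxy]

variable {G : Type} [Group G] {a s t : G}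

theorem phi_M (φ : G →* Md x y) (hs : φ s = ⟨0, 1, 0⟩) (ht : φ t = ⟨1, 0, 0⟩) (i j : ℤ) :
    φ (M2 s t i j) = ⟨i, j, 0⟩ := by
  unfold M2
  rw [map_mul, map_zpow, map_zpow, hs, ht, zpow_t, zpow_s]
  ext <;> simp

theorem phi_L (φ : G →* Md x y) (ha : φ a = ⟨0, 0, 1⟩) (hs : φ s = ⟨0, 1, 0⟩)
    (ht : φ t = ⟨1, 0, 0⟩) (i j : ℤ) : φ (L2 a s t i j) = ⟨0, 0, mon x y i j⟩ := by
  unfold L2
  rw [map_mul, map_mul, map_inv, phi_M φ hs ht, ha]
  ext <;> simp

theorem phi_step (φ : G →* Md x y) (ha : φ a = ⟨0, 0, 1⟩) (hs : φ s = ⟨0, 1, 0⟩)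
    (ht : φ t = ⟨1, 0, 0⟩) (u v : G) (h : u⁻¹ * v ∈ Gen a s t) :
    |(φ v).i - (φ u).i| ≤ 1 ∧ |(φ v).j - (φ u).j| ≤ 1 ∧
      |(-(φ v).i - (φ v).j) - (-(φ u).i - (φ u).j)| ≤ 1 ∧
      ((φ v).r = (φ u).r ∨ (φ v).r = (φ u).r + mon x y (φ v).i (φ v).j) := by
  rw [mem_Gen] at h
  obtain ⟨i, j, h1, h2, h3, e | e⟩ := h
  · have : φ v = φ u * ⟨i, j, 0⟩ := by rw [← phi_M φ hs ht, ← e, ← map_mul]; simp
    rw [this]
    simp only [mul_i, mul_j, mul_r]
    rw [abs_le] at *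
    refine ⟨by omega, abs_le.2 (by omega), abs_le.2 (by omega), Or.inl (by simp)⟩
  · have : φ v = φ u * (⟨i, j, 0⟩ * ⟨0, 0, 1⟩) := by
      rw [← phi_M φ hs ht, ← ha, ← map_mul, ← e, ← map_mul]; simp
    rw [this]
    simp only [mul_i, mul_j, mul_r]
    rw [abs_le] at *
    refine ⟨by omega, abs_le.2 (by omega), abs_le.2 (by omega), Or.inr (by simp [mon_add])⟩

theorem lower (φ : G →* Md x y) (ha : φ a = ⟨0, 0, 1⟩) (hs : φ s = ⟨0, 1, 0⟩)
    (ht : φ t = ⟨1, 0, 0⟩) (hS : Subgroup.closure (Gen a s t : Set G) = ⊤) (n : ℕ)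
    (W1 W2 W3 : AddSubgroup R) (r : R)
    (m1 : ∀ i j : ℤ, -(n : ℤ) < i → mon x y i j ∈ W1)
    (m2 : ∀ i j : ℤ, -(n : ℤ) < j → mon x y i j ∈ W2)
    (m3 : ∀ i j : ℤ, -(n : ℤ) < -i - j → mon x y i j ∈ W3)
    (n1 : r ∉ W1) (n2 : r ∉ W2) (n3 : r ∉ W3) (g : G) (hg : φ g = ⟨0, 0, r⟩) :
    5 * n ≤ len (Gen a s t) g := by
  obtain ⟨p, hp⟩ := (conn _ hS).exists_walk_length_eq_dist 1 g
  let z : ℕ → Md x y := fun m => φ (p.getVert m)
  have z0 : z 0 = 1 := by simp [z]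
  have zl : z p.length = ⟨0, 0, r⟩ := by simp [z, hg]
  have st : ∀ m, |(z (m + 1)).i - (z m).i| ≤ 1 ∧ |(z (m + 1)).j - (z m).j| ≤ 1 ∧
      |(-(z (m + 1)).i - (z (m + 1)).j) - (-(z m).i - (z m).j)| ≤ 1 ∧
      ((z (m + 1)).r = (z m).r ∨ (z (m + 1)).r = (z m).r + mon x y (z (m + 1)).i (z (m + 1)).j ∨
        (z (m + 1)).r = (z m).r - mon x y (z m).i (z m).j) := by
    intro m
    rcases Nat.lt_or_ge m p.length with h | h
    · rcases ((adj_iff _ _ _).1 (p.adj_getVert_succ h)).2 with e | e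
      · obtain ⟨b1, b2, b3, b4⟩ := phi_step φ ha hs ht _ _ e
        refine ⟨b1, b2, b3, ?_⟩
        rcases b4 with b4 | b4
        · exact Or.inl b4
        · exact Or.inr (Or.inl b4)
      · obtain ⟨b1, b2, b3, b4⟩ := phi_step φ ha hs ht _ _ e
        rw [abs_sub_comm] at b1 b2 b3
        refine ⟨b1, b2, b3, ?_⟩
        rcases b4 with b4 | b4
        · exact Or.inl b4.symm
        · exact Or.inr (Or.inr (eq_sub_of_add_eq b4.symm))
    · have : z (m + 1) = z m := by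
        simp only [z]
        rw [p.getVert_of_length_le h, p.getVert_of_length_le (by omega)]
      rw [this]
      simp
  have time : ∀ (W : AddSubgroup R) (f : ℤ → ℤ → ℤ), (∀ i j, -(n : ℤ) < f i j → mon x y i j ∈ W) →
      r ∉ W → ∃ m ≤ p.length, f (z m).i (z m).j ≤ -n := by
    intro W f hf hr
    by_contra hc
    push Not at hc
    have : ∀ m ≤ p.length, (z m).r ∈ W := by
      intro m
      induction m with
      | zero => intro _; rw [z0]; exact W.zero_mem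
      | succ m ih =>
        intro hm
        have := ih (by omega)
        rcases (st m).2.2.2 with e | e | e <;> rw [e]
        · exact this
        · exact W.add_mem this (hf _ _ (hc _ hm))
        · exact W.sub_mem this (hf _ _ (hc _ (by omega)))
    have := this _ le_rfl
    rw [zl] at this
    exact hr this
  obtain ⟨t1, o1, a1⟩ := time W1 (fun i _ => i) m1 n1
  obtain ⟨t2, o2, a2⟩ := time W2 (fun _ j => j) m2 n2
  obtain ⟨t3, o3, a3⟩ := time W3 (fun i j => -i - j) m3 n3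
  have := five (fun m => (z m).i) (fun m => (z m).j) (fun m => -(z m).i - (z m).j) n p.length
    t1 t2 t3 (fun m => by ring) (fun m => (st m).1) (fun m => (st m).2.1) (fun m => (st m).2.2.1)
    (by simp [z0]) (by simp [z0]) (by simp [z0]) (by simp [zl]) (by simp [zl]) (by simp [zl])
    o1 o2 o3 a1 a2 a3
  unfold len
  omega

end

theorem exists_W {R K Γ : Type} [CommRing R] [Field K] [LinearOrderedCommGroupWithZero Γ]
    (x y : Rˣ) (π : R →+* K) (v : Valuation K Γ) (γ : Γ) (g0 : 0 < γ) (g1 : γ < 1)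
    (f : ℤ → ℤ → ℤ) (hf : ∀ i j, v (π (mon x y i j)) = γ ^ f i j) (n : ℕ) :
    ∃ W : AddSubgroup R, ∀ i j, mon x y i j ∈ W ↔ -(n : ℤ) < f i j := by
  refine ⟨(v.leAddSubgroup (γ ^ (-(n : ℤ) + 1))).comap π.toAddMonoidHom, ?_⟩
  intro i j
  rw [AddSubgroup.mem_comap, Valuation.mem_leAddSubgroup_iff]
  change v (π (mon x y i j)) ≤ _ ↔ _
  rw [hf, zpow_le_zpow_iff_right_of_lt_one₀ g0 g1]
  omega

theorem exists_model : ∃ (R : Type) (_ : CommRing R) (x y : Rˣ), (1 : R) + 1 = 0 ∧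
    (y : R) = 1 + x ∧ ∀ n : ℕ, ∃ W1 W2 W3 : AddSubgroup R,
      (∀ i j, mon x y i j ∈ W1 ↔ -(n : ℤ) < i) ∧ (∀ i j, mon x y i j ∈ W2 ↔ -(n : ℤ) < j) ∧
      (∀ i j, mon x y i j ∈ W3 ↔ -(n : ℤ) < -i - j) := by
  let K := RatFunc (ZMod 2)
  let v : Valuation K (WithZero (Multiplicative ℤ)) := (Polynomial.idealX (ZMod 2)).valuation K
  let z : K := RatFunc.X
  have hv : v z = WithZero.exp (-1 : ℤ) := Polynomial.valuation_X_eq_neg_one (ZMod 2)
  have g0 : 0 < v z := by rw [hv]; exact WithZero.exp_pos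
  have g1 : v z < 1 := by rw [hv, ← WithZero.exp_zero, WithZero.exp_lt_exp]; norm_num
  have z0 : z ≠ 0 := by intro h; rw [h, map_zero] at g0; exact lt_irrefl _ g0
  have hw : v (1 + z) = 1 := v.map_one_add_of_lt g1
  have w0 : 1 + z ≠ 0 := by intro h; rw [h, map_zero] at hw; exact zero_ne_one hw
  have h2 : (1 : K) + 1 = 0 := by
    have : (algebraMap (ZMod 2) K) (1 + 1) = 0 := by
      rw [show (1 : ZMod 2) + 1 = 0 from rfl, map_zero]
    simpa using this
  let x : (K × K × K)ˣ := ⟨(z / (1 + z), 1 / (1 + z), 1 / z), ((1 + z) / z, 1 + z, z),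
    by ext <;> simp [z0, w0], by ext <;> simp [z0, w0]⟩
  let y : (K × K × K)ˣ := ⟨(1 / (1 + z), z / (1 + z), (1 + z) / z), (1 + z, (1 + z) / z, z / (1 + z)),
    by ext <;> simp [z0, w0], by ext <;> simp [z0, w0]⟩
  have hm : ∀ (π : K × K × K →+* K) (i j : ℤ), v (π (mon x y i j)) =
      v (π x) ^ i * v (π y) ^ j := by
    intro π i j
    unfold mon
    have := map_mul (v.toMonoidWithZeroHom.toMonoidHom.comp (π.toMonoidHom.comp (Units.coeHom _)))
      (x ^ i) (y ^ j)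
    rw [map_zpow, map_zpow] at this
    exact this
  refine ⟨K × K × K, inferInstance, x, y, ?_, ?_, ?_⟩
  · ext <;> simpa using h2
  · ext
    · change 1 / (1 + z) = 1 + z / (1 + z)
      rw [div_eq_iff w0, add_mul, div_mul_cancel₀ _ w0]
      linear_combination (-z) * h2
    · change z / (1 + z) = 1 + 1 / (1 + z)
      rw [div_eq_iff w0, add_mul, div_mul_cancel₀ _ w0]
      linear_combination (-1) * h2
    · change (1 + z) / z = 1 + 1 / z
      rw [div_eq_iff z0, add_mul, div_mul_cancel₀ _ z0]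
      ring
  · intro n
    obtain ⟨W1, h1⟩ := exists_W x y (RingHom.fst _ _) v (v z) g0 g1 (fun i _ => i) (by
      intro i j
      rw [hm]
      change v (z / (1 + z)) ^ i * v (1 / (1 + z)) ^ j = _
      simp [hw]) n
    obtain ⟨W2, h2⟩ := exists_W x y ((RingHom.fst _ _).comp (RingHom.snd _ _)) v (v z) g0 g1
      (fun _ j => j) (by
      intro i j
      rw [hm]
      change v (1 / (1 + z)) ^ i * v (z / (1 + z)) ^ j = _
      simp [hw]) n
    obtain ⟨W3, h3⟩ := exists_W x y ((RingHom.snd _ _).comp (RingHom.snd _ _)) v (v z) g0 g1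
      (fun i j => -i - j) (by
      intro i j
      rw [hm]
      change v (1 / z) ^ i * v ((1 + z) / z) ^ j = _
      rw [map_div₀, map_div₀, hw, map_one, one_div, inv_zpow', inv_zpow', ← zpow_add₀ g0.ne',
        sub_eq_add_neg]) n
    exact ⟨W1, W2, W3, h1, h2, h3⟩

def rels : Set (FreeGroup (Fin 3)) :=
  {FreeGroup.of 0 * FreeGroup.of 0,
   FreeGroup.of 1 * FreeGroup.of 2 * (FreeGroup.of 2 * FreeGroup.of 1)⁻¹,
   FreeGroup.of 0 * (FreeGroup.of 2 * FreeGroup.of 0 * (FreeGroup.of 2)⁻¹) *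
     ((FreeGroup.of 2 * FreeGroup.of 0 * (FreeGroup.of 2)⁻¹) * FreeGroup.of 0)⁻¹,
   FreeGroup.of 1 * FreeGroup.of 0 * (FreeGroup.of 1)⁻¹ *
     (FreeGroup.of 0 * (FreeGroup.of 2 * FreeGroup.of 0 * (FreeGroup.of 2)⁻¹))⁻¹}

theorem rels_iff {G : Type} [Group G] (f : FreeGroup (Fin 3) →* G) :
    (∀ r ∈ rels, f r = 1) ↔
      Bau (f (FreeGroup.of 0)) (f (FreeGroup.of 1)) (f (FreeGroup.of 2)) := by
  unfold rels
  simp only [Set.mem_insert_iff, Set.mem_singleton_iff, forall_eq_or_imp, forall_eq, map_mul,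
    map_inv, mul_inv_eq_one]
  exact ⟨fun h => ⟨h.1, h.2.1, h.2.2.1, h.2.2.2⟩, fun h => ⟨h.aa, h.st, h.c1, h.sa⟩⟩

abbrev Gam : Type := PresentedGroup rels

instance : Finite rels := by
  unfold rels
  exact Set.Finite.to_subtype (by simp)

def ga : Gam := PresentedGroup.of 0
def gs : Gam := PresentedGroup.of 1
def gt : Gam := PresentedGroup.of 2

theorem gam_bau : Bau ga gs gt :=
  (rels_iff (PresentedGroup.mk rels)).1 (fun _ h => PresentedGroup.one_of_mem h)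

theorem gam_gen : Subgroup.closure (Gen ga gs gt : Set Gam) = ⊤ := by
  rw [eq_top_iff, ← PresentedGroup.closure_range_of]
  apply Subgroup.closure_mono
  rintro _ ⟨k, rfl⟩
  rw [Finset.mem_coe, mem_Gen]
  fin_cases k
  · exact ⟨0, 0, by simp, by simp, by simp, Or.inr (by simp [M2, ga])⟩
  · exact ⟨0, 1, by simp, by simp, by simp, Or.inl (by simp [M2, gs])⟩
  · exact ⟨1, 0, by simp, by simp, by simp, Or.inl (by simp [M2, gt])⟩

theorem gam_deep (n : ℕ) (hn : 0 < n) : ∃ g ∈ Box ga gs gt n, 5 * n ≤ len (Gen ga gs gt) g := by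
  obtain ⟨R, _, x, y, h2, hxy, hW⟩ := exists_model
  obtain ⟨W1, W2, W3, h1, h2', h3⟩ := hW n
  let f : Fin 3 → Md x y := ![⟨0, 0, 1⟩, ⟨0, 1, 0⟩, ⟨1, 0, 0⟩]
  have hf : ∀ r ∈ rels, FreeGroup.lift f r = 1 := by
    rw [rels_iff]
    simpa [f] using md_bau h2 hxy
  let φ : Gam →* Md x y := PresentedGroup.toGroup hf
  have ha : φ ga = ⟨0, 0, 1⟩ := PresentedGroup.toGroup.of hf
  have hs : φ gs = ⟨0, 1, 0⟩ := PresentedGroup.toGroup.of hf
  have ht : φ gt = ⟨1, 0, 0⟩ := PresentedGroup.toGroup.of hf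
  refine ⟨L2 ga gs gt (-n) 0 * L2 ga gs gt n (-n) * L2 ga gs gt 0 n, ?_, ?_⟩
  · refine ⟨_, ?_, 0, 0, by omega, by omega, by omega, by rw [M_zero, mul_one]⟩
    refine Subgroup.mul_mem _ (Subgroup.mul_mem _ ?_ ?_) ?_
    · exact Subgroup.subset_closure ⟨-n, 0, n, by omega, by omega, by omega, by omega, rfl⟩
    · exact Subgroup.subset_closure ⟨n, -n, 0, by omega, by omega, by omega, by omega, rfl⟩
    · exact Subgroup.subset_closure ⟨0, n, -n, by omega, by omega, by omega, by omega, rfl⟩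
  · refine lower φ ha hs ht gam_gen n W1 W2 W3
      (mon x y (-n) 0 + mon x y n (-n) + mon x y 0 n) (fun i j h => (h1 i j).2 h)
      (fun i j h => (h2' i j).2 h) (fun i j h => (h3 i j).2 h) ?_ ?_ ?_ _ ?_
    · intro h
      have := W1.sub_mem (W1.sub_mem h ((h1 0 n).2 (by omega))) ((h1 n (-n)).2 (by omega))
      rw [add_sub_cancel_right, add_sub_cancel_right, h1] at this
      omega
    · intro h
      have := W2.sub_mem (W2.sub_mem h ((h2' 0 n).2 (by omega))) ((h2' (-n) 0).2 (by omega))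
      rw [add_sub_cancel_right, add_sub_cancel_left, h2'] at this
      omega
    · intro h
      have := W3.sub_mem h (W3.add_mem ((h3 (-n) 0).2 (by omega)) ((h3 n (-n)).2 (by omega)))
      rw [add_sub_cancel_left, h3] at this
      omega
    · rw [map_mul, map_mul, phi_L φ ha hs ht, phi_L φ ha hs ht, phi_L φ ha hs ht]
      ext <;> simp [mon_zero]

theorem gam_not_BRD : ¬ BRD (Perp (Gen ga gs gt)) := by
  apply not_BRD_Perp _ gam_gen
  intro D
  refine ⟨Box ga gs gt (D + 2), 4 * (D + 2) + 1, 7 * (D + 2) + 1,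
    gam_bau.box_bound gam_gen _, gam_bau.box_exit gam_gen _, ?_⟩
  obtain ⟨g, h1, h2⟩ := gam_deep (D + 2) (by omega)
  exact ⟨g, h1, by omega⟩

theorem gam_BRD : BRD (Vee (Gen ga gs gt)) := by
  apply BRD_Vee _ gam_gen
  intro R
  obtain ⟨g, -, h2⟩ := gam_deep (R + 1) (by omega)
  exact ⟨g, by omega⟩

theorem gam_fp : Group.IsFinitelyPresented (Gam × Gam) := fp_prod _ gam_gen

end Pool.Agent.H.MP_9b0338_al
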