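import Mathlib

set_option autoImplicit false

namespace Pool.Agent.H.MP_9b0338_al

open SimpleGraph

variable {G : Type} [Group G]

def Cay (S : Finset G) : SimpleGraph G := SimpleGraph.fromRel (fun a b : G => a⁻¹ * b ∈ S)

noncomputable def len (S : Finset G) (g : G) : ℕ := (Cay S).dist 1 g

def BRD (S : Finset G) : Prop :=
  ∃ D : ℕ, ∀ g : G, ∀ R : ℕ, ∃ h : G, R ≤ (Cay S).dist 1 h ∧
    ∃ p : (Cay S).Walk g h, ∀ v ∈ p.support, (Cay S).dist 1 g ≤ (Cay S).dist 1 v + D

theorem adj_iff (S : Finset G) (u v : G) :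
    (Cay S).Adj u v ↔ u ≠ v ∧ (u⁻¹ * v ∈ S ∨ v⁻¹ * u ∈ S) := by
  unfold Cay; rw [SimpleGraph.fromRel_adj]

theorem len_one (S : Finset G) : len S 1 = 0 := by simp [len]

theorem reach_of (S : Finset G) (u v : G) (h : u⁻¹ * v ∈ S ∨ v⁻¹ * u ∈ S) :
    u = v ∨ (Cay S).Adj u v := by
  by_cases e : u = v
  · exact Or.inl e
  · exact Or.inr ((adj_iff S u v).2 ⟨e, h⟩)

theorem conn (S : Finset G) (hS : Subgroup.closure (S : Set G) = ⊤) : (Cay S).Connected := by
  have key : ∀ g : G, ∀ x : G, (Cay S).Reachable x (x * g) := by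
    intro g
    have hg : g ∈ Subgroup.closure (S : Set G) := by rw [hS]; trivial
    induction hg using Subgroup.closure_induction with
    | mem s hs =>
      intro x
      rcases reach_of S x (x * s) (Or.inl (by simpa using hs)) with h | h
      · rw [← h]
      · exact h.reachable
    | one => intro x; simp
    | mul a b _ _ ha hb =>
      intro x
      rw [← mul_assoc]
      exact (ha x).trans (hb _)
    | inv a _ ha =>
      intro x
      have := (ha (x * a⁻¹)).symm
      simpa using this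
  refine ⟨fun u v => ?_⟩
  have := key (u⁻¹ * v) u
  simpa using this

theorem len_adj (S : Finset G) (hS : Subgroup.closure (S : Set G) = ⊤) {u v : G}
    (h : (Cay S).Adj u v) : len S v ≤ len S u + 1 := by
  have h1 : (Cay S).dist u v = 1 := SimpleGraph.dist_eq_one_iff_adj.2 h
  have := (conn S hS).dist_triangle (u := 1) (v := u) (w := v)
  unfold len
  omega

theorem len_step (S : Finset G) (hS : Subgroup.closure (S : Set G) = ⊤) {u v : G}
    (h : u⁻¹ * v ∈ S ∨ v⁻¹ * u ∈ S) : len S v ≤ len S u + 1 := by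
  rcases reach_of S u v h with e | e
  · rw [e]; omega
  · exact len_adj S hS e

theorem le_len (S : Finset G) (hS : Subgroup.closure (S : Set G) = ⊤) (f : G → ℕ)
    (hf : ∀ u v, (Cay S).Adj u v → f v ≤ f u + 1) (g : G) : f g ≤ f 1 + len S g := by
  have key : ∀ (u v : G) (p : (Cay S).Walk u v), f v ≤ f u + p.length := by
    intro u v p
    induction p with
    | nil => simp
    | cons h p ih =>
      have := hf _ _ h
      simp only [Walk.length_cons]
      omega
  obtain ⟨p, hp⟩ := (conn S hS).exists_walk_length_eq_dist 1 g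
  have := key _ _ p
  unfold len
  omega

theorem exists_pred (S : Finset G) (hS : Subgroup.closure (S : Set G) = ⊤) (n : ℕ) (g : G)
    (hg : len S g ≤ n + 1) :
    ∃ g' : G, len S g' ≤ n ∧ (g'⁻¹ * g = 1 ∨ g'⁻¹ * g ∈ S ∨ (g'⁻¹ * g)⁻¹ ∈ S) := by
  by_cases h : len S g ≤ n
  · exact ⟨g, h, Or.inl (by simp)⟩
  obtain ⟨p, hp⟩ := (conn S hS).exists_walk_length_eq_dist g 1
  have e : (Cay S).dist g 1 = n + 1 := by
    rw [SimpleGraph.dist_comm]; unfold len at hg h; omega
  cases p with
  | nil => simp at e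
  | @cons _ w _ hadj q =>
    refine ⟨w, ?_, Or.inr ?_⟩
    · have := SimpleGraph.dist_le q
      simp only [Walk.length_cons] at hp
      unfold len
      rw [SimpleGraph.dist_comm]
      omega
    · rcases ((adj_iff S g w).1 hadj).2 with h1 | h1
      · right; simpa using h1
      · left; exact h1

open Classical in
noncomputable def Sym (S : Finset G) : Finset G := insert 1 (S ∪ S.image (fun x => x⁻¹))

theorem mem_Sym (S : Finset G) (x : G) : x ∈ Sym S ↔ x = 1 ∨ x ∈ S ∨ x⁻¹ ∈ S := by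
  classical
  unfold Sym
  simp only [Finset.mem_insert, Finset.mem_union, Finset.mem_image]
  constructor
  · rintro (h | h | ⟨y, hy, rfl⟩)
    · exact Or.inl h
    · exact Or.inr (Or.inl h)
    · exact Or.inr (Or.inr (by simpa using hy))
  · rintro (h | h | h)
    · exact Or.inl h
    · exact Or.inr (Or.inl h)
    · exact Or.inr (Or.inr ⟨x⁻¹, h, by simp⟩)

noncomputable def Vee (S : Finset G) : Finset (G × G) := Sym S ×ˢ Sym S

open Classical in
noncomputable def Perp (S : Finset G) : Finset (G × G) := (S ×ˢ {1}) ∪ ({1} ×ˢ S)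

theorem mem_Perp (S : Finset G) (x : G × G) :
    x ∈ Perp S ↔ (x.1 ∈ S ∧ x.2 = 1) ∨ (x.1 = 1 ∧ x.2 ∈ S) := by
  classical
  unfold Perp
  rw [Finset.mem_union, Finset.mem_product, Finset.mem_product, Finset.mem_singleton,
    Finset.mem_singleton]

theorem closure_Perp (S : Finset G) (hS : Subgroup.closure (S : Set G) = ⊤) :
    Subgroup.closure (Perp S : Set (G × G)) = ⊤ := by
  rw [eq_top_iff]
  rintro ⟨x, y⟩ -
  have h1 : ∀ x : G, ((x, 1) : G × G) ∈ Subgroup.closure (Perp S : Set (G × G)) := by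
    intro x
    have hx : x ∈ Subgroup.closure (S : Set G) := by rw [hS]; trivial
    induction hx using Subgroup.closure_induction with
    | mem s hs =>
      exact Subgroup.subset_closure (Finset.mem_coe.2 ((mem_Perp S _).2 (Or.inl ⟨hs, rfl⟩)))
    | one => exact Subgroup.one_mem _
    | mul a b _ _ ha hb => simpa using Subgroup.mul_mem _ ha hb
    | inv a _ ha => simpa using Subgroup.inv_mem _ ha
  have h2 : ∀ x : G, ((1, x) : G × G) ∈ Subgroup.closure (Perp S : Set (G × G)) := by
    intro x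
    have hx : x ∈ Subgroup.closure (S : Set G) := by rw [hS]; trivial
    induction hx using Subgroup.closure_induction with
    | mem s hs =>
      exact Subgroup.subset_closure (Finset.mem_coe.2 ((mem_Perp S _).2 (Or.inr ⟨rfl, hs⟩)))
    | one => exact Subgroup.one_mem _
    | mul a b _ _ ha hb => simpa using Subgroup.mul_mem _ ha hb
    | inv a _ ha => simpa using Subgroup.inv_mem _ ha
  simpa using Subgroup.mul_mem _ (h1 x) (h2 y)

theorem closure_Vee (S : Finset G) (hS : Subgroup.closure (S : Set G) = ⊤) :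
    Subgroup.closure (Vee S : Set (G × G)) = ⊤ := by
  rw [eq_top_iff, ← closure_Perp S hS]
  apply Subgroup.closure_mono
  intro x hx
  rw [Finset.mem_coe] at hx ⊢
  unfold Vee
  rw [Finset.mem_product, mem_Sym, mem_Sym]
  rcases (mem_Perp S x).1 hx with h | h
  · exact ⟨Or.inr (Or.inl h.1), Or.inl h.2⟩
  · exact ⟨Or.inl h.1, Or.inr (Or.inl h.2)⟩

theorem len_Sym_step (S : Finset G) (hS : Subgroup.closure (S : Set G) = ⊤) {u v : G}
    (h : u⁻¹ * v ∈ Sym S ∨ v⁻¹ * u ∈ Sym S) : len S v ≤ len S u + 1 := by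
  rw [mem_Sym, mem_Sym] at h
  rcases h with (h | h | h) | (h | h | h)
  · rw [inv_mul_eq_one] at h; rw [h]; omega
  · exact len_step S hS (Or.inl h)
  · exact len_step S hS (Or.inr (by simpa using h))
  · rw [inv_mul_eq_one] at h; rw [h]; omega
  · exact len_step S hS (Or.inr h)
  · exact len_step S hS (Or.inl (by simpa using h))

theorem len_Vee (S : Finset G) (hS : Subgroup.closure (S : Set G) = ⊤) (x y : G) :
    len (Vee S) (x, y) = max (len S x) (len S y) := by
  apply le_antisymm
  · have key : ∀ n : ℕ, ∀ x y : G, len S x ≤ n → len S y ≤ n → len (Vee S) (x, y) ≤ n := by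
      intro n
      induction n with
      | zero =>
        intro x y hx hy
        have e1 : (1 : G) = x := ((conn S hS).dist_eq_zero_iff).1 (by unfold len at hx; omega)
        have e2 : (1 : G) = y := ((conn S hS).dist_eq_zero_iff).1 (by unfold len at hy; omega)
        rw [← e1, ← e2]
        exact (len_one (Vee S)).le
      | succ n ih =>
        intro x y hx hy
        obtain ⟨x', hx1, hx2⟩ := exists_pred S hS n x hx
        obtain ⟨y', hy1, hy2⟩ := exists_pred S hS n y hy
        have := len_step (Vee S) (closure_Vee S hS) (u := (x', y')) (v := (x, y)) (Or.inl (by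
          unfold Vee
          rw [Finset.mem_product, mem_Sym, mem_Sym]
          exact ⟨hx2, hy2⟩))
        have := ih x' y' hx1 hy1
        omega
    exact key _ x y (le_max_left _ _) (le_max_right _ _)
  · have := le_len (Vee S) (closure_Vee S hS) (fun z => max (len S z.1) (len S z.2)) (by
      intro u v h
      have h2 := ((adj_iff _ u v).1 h).2
      unfold Vee at h2
      rw [Finset.mem_product, Finset.mem_product] at h2
      have a1 : len S v.1 ≤ len S u.1 + 1 := len_Sym_step S hS (by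
        rcases h2 with h2 | h2
        · exact Or.inl h2.1
        · exact Or.inr h2.1)
      have a2 : len S v.2 ≤ len S u.2 + 1 := len_Sym_step S hS (by
        rcases h2 with h2 | h2
        · exact Or.inl h2.2
        · exact Or.inr h2.2)
      omega) (x, y)
    simpa [len_one] using this

theorem BRD_Vee (S : Finset G) (hS : Subgroup.closure (S : Set G) = ⊤)
    (hinf : ∀ R : ℕ, ∃ g : G, R ≤ len S g) : BRD (Vee S) := by
  refine ⟨0, ?_⟩
  rintro ⟨x, y⟩ R
  obtain ⟨z, hz⟩ := hinf R
  change ∃ h : G × G, R ≤ len (Vee S) h ∧ ∃ p : (Cay (Vee S)).Walk (x, y) h,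
    ∀ v ∈ p.support, len (Vee S) (x, y) ≤ len (Vee S) v + 0
  have sy : ∀ u v : G, (Cay S).Adj u v → u ≠ v ∧ u⁻¹ * v ∈ Sym S := by
    intro u v h
    obtain ⟨h1, h2⟩ := (adj_iff S u v).1 h
    refine ⟨h1, (mem_Sym S _).2 (Or.inr ?_)⟩
    rcases h2 with h2 | h2
    · exact Or.inl h2
    · exact Or.inr (by simpa using h2)
  rcases le_total (len S y) (len S x) with hle | hle
  · let φ : Cay S →g Cay (Vee S) := ⟨fun w => (x, w), by
      intro u v h
      obtain ⟨h1, h2⟩ := sy u v h
      refine (adj_iff _ _ _).2 ⟨by simpa using h1, Or.inl ?_⟩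
      unfold Vee
      rw [Finset.mem_product]
      exact ⟨(mem_Sym S _).2 (Or.inl (by simp)), h2⟩⟩
    obtain ⟨p⟩ := (conn S hS).preconnected y z
    refine ⟨(x, z), by rw [len_Vee S hS]; omega, p.map φ, ?_⟩
    intro v hv
    rw [Walk.support_map, List.mem_map] at hv
    obtain ⟨w, -, rfl⟩ := hv
    change len (Vee S) (x, y) ≤ len (Vee S) (x, w) + 0
    rw [len_Vee S hS, len_Vee S hS]
    omega
  · let φ : Cay S →g Cay (Vee S) := ⟨fun w => (w, y), by
      intro u v h
      obtain ⟨h1, h2⟩ := sy u v h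
      refine (adj_iff _ _ _).2 ⟨by simpa using h1, Or.inl ?_⟩
      unfold Vee
      rw [Finset.mem_product]
      exact ⟨h2, (mem_Sym S _).2 (Or.inl (by simp))⟩⟩
    obtain ⟨p⟩ := (conn S hS).preconnected x z
    refine ⟨(z, y), by rw [len_Vee S hS]; omega, p.map φ, ?_⟩
    intro v hv
    rw [Walk.support_map, List.mem_map] at hv
    obtain ⟨w, -, rfl⟩ := hv
    change len (Vee S) (x, y) ≤ len (Vee S) (w, y) + 0
    rw [len_Vee S hS, len_Vee S hS]
    omega

theorem adj_Perp (S : Finset G) {u v : G × G} (h : (Cay (Perp S)).Adj u v) :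
    (u.2 = v.2 ∧ (u.1⁻¹ * v.1 ∈ S ∨ v.1⁻¹ * u.1 ∈ S)) ∨
      (u.1 = v.1 ∧ (u.2⁻¹ * v.2 ∈ S ∨ v.2⁻¹ * u.2 ∈ S)) := by
  have h2 := ((adj_iff _ u v).1 h).2
  rw [mem_Perp, mem_Perp] at h2
  simp only [Prod.fst_mul, Prod.snd_mul, Prod.fst_inv, Prod.snd_inv, inv_mul_eq_one] at h2
  rcases h2 with (h2 | h2) | (h2 | h2)
  · exact Or.inl ⟨h2.2, Or.inl h2.1⟩
  · exact Or.inr ⟨h2.1, Or.inl h2.2⟩
  · exact Or.inl ⟨h2.2.symm, Or.inr h2.1⟩
  · exact Or.inr ⟨h2.1.symm, Or.inr h2.2⟩

theorem len_Perp (S : Finset G) (hS : Subgroup.closure (S : Set G) = ⊤) (x y : G) :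
    len (Perp S) (x, y) = len S x + len S y := by
  apply le_antisymm
  · have a1 := le_len S hS (fun w => len (Perp S) (w, 1)) (by
      intro u v h
      apply len_step _ (closure_Perp S hS)
      rw [mem_Perp, mem_Perp]
      rcases ((adj_iff S u v).1 h).2 with h2 | h2
      · exact Or.inl (Or.inl ⟨h2, by simp⟩)
      · exact Or.inr (Or.inl ⟨h2, by simp⟩)) x
    have a2 := le_len S hS (fun w => len (Perp S) (x, w)) (by
      intro u v h
      apply len_step _ (closure_Perp S hS)
      rw [mem_Perp, mem_Perp]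
      rcases ((adj_iff S u v).1 h).2 with h2 | h2
      · exact Or.inl (Or.inr ⟨by simp, h2⟩)
      · exact Or.inr (Or.inr ⟨by simp, h2⟩)) y
    have a3 : len (Perp S) ((1, 1) : G × G) = 0 := len_one _
    omega
  · have := le_len (Perp S) (closure_Perp S hS) (fun z => len S z.1 + len S z.2) (by
      intro u v h
      rcases adj_Perp S h with ⟨h1, h2⟩ | ⟨h1, h2⟩
      · have := len_step S hS h2
        rw [h1]; omega
      · have := len_step S hS h2
        rw [h1]; omega) (x, y)
    simpa [len_one] using this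

theorem not_BRD_Perp (S : Finset G) (hS : Subgroup.closure (S : Set G) = ⊤)
    (H : ∀ D : ℕ, ∃ (B : Set G) (e N : ℕ), (∀ g ∈ B, len S g ≤ N) ∧
      (∀ u ∈ B, ∀ v, (u⁻¹ * v ∈ S ∨ v⁻¹ * u ∈ S) → v ∉ B → len S u ≤ e) ∧
      ∃ g ∈ B, e + D < len S g) : ¬ BRD (Perp S) := by
  rintro ⟨D, hD⟩
  obtain ⟨B, e, N, h1, h2, g0, hg0, h3⟩ := H D
  obtain ⟨g, hgB, hg⟩ : ∃ g ∈ B, ∀ x ∈ B, len S x ≤ len S g := by
    have hfin : (len S '' B).Finite := (Set.finite_Iic N).subset (by
      rintro _ ⟨x, hx, rfl⟩; exact h1 x hx)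
    obtain ⟨_, ⟨g, hg, rfl⟩, hm⟩ := Set.exists_max_image (len S '' B) id hfin ⟨_, g0, hg0, rfl⟩
    exact ⟨g, hg, fun x hx => hm _ ⟨x, hx, rfl⟩⟩
  obtain ⟨⟨x, y⟩, hR, p, hp⟩ := hD (g, g) (2 * len S g + 1)
  change _ ≤ len (Perp S) (x, y) at hR
  rw [len_Perp S hS] at hR
  have hnot : (x, y) ∉ B ×ˢ B := by
    rintro ⟨a1, a2⟩
    have := hg x a1
    have := hg y a2
    omega
  obtain ⟨d, hd, d1, d2⟩ := p.exists_boundary_dart (B ×ˢ B) ⟨hgB, hgB⟩ hnot
  have hs := hp d.fst (Walk.dart_fst_mem_support_of_mem_darts p hd)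
  change len (Perp S) (g, g) ≤ len (Perp S) (d.fst.1, d.fst.2) + D at hs
  rw [len_Perp S hS, len_Perp S hS] at hs
  have b0 := hg g0 hg0
  have b1 := hg _ d1.1
  have b2 := hg _ d1.2
  rcases adj_Perp S d.adj with ⟨a1, a2⟩ | ⟨a1, a2⟩
  · have := h2 _ d1.1 _ a2 (fun hh => d2 ⟨hh, a1 ▸ d1.2⟩)
    omega
  · have := h2 _ d1.2 _ a2 (fun hh => d2 ⟨a1 ▸ d1.1, hh⟩)
    omega

theorem fp_prod [hG : Group.IsFinitelyPresented G] (S : Finset G)
    (hS : Subgroup.closure (S : Set G) = ⊤) : Group.IsFinitelyPresented (G × G) := by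
  refine Group.IsFinitelyPresented.of_surjective (Monoid.Coprod.toProd : Monoid.Coprod G G →* G × G)
    Monoid.Coprod.toProd_surjective ?_
  let C : Set (Monoid.Coprod G G) :=
    (fun z : G × G => Monoid.Coprod.inl z.1 * Monoid.Coprod.inr z.2 *
      (Monoid.Coprod.inl z.1)⁻¹ * (Monoid.Coprod.inr z.2)⁻¹) '' ((S : Set G) ×ˢ (S : Set G))
  refine ⟨C, (S.finite_toSet.prod S.finite_toSet).image _, le_antisymm ?_ ?_⟩
  · apply Subgroup.normalClosure_le_normal
    rintro _ ⟨z, -, rfl⟩
    obtain ⟨x, y⟩ := z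
    simp [MonoidHom.mem_ker]
  · let N := Subgroup.normalClosure C
    let q : Monoid.Coprod G G →* Monoid.Coprod G G ⧸ N := QuotientGroup.mk' N
    have c0 : ∀ x ∈ S, ∀ y ∈ S, Commute (q (Monoid.Coprod.inl x)) (q (Monoid.Coprod.inr y)) := by
      intro x hx y hy
      have : q (Monoid.Coprod.inl x * Monoid.Coprod.inr y *
          (Monoid.Coprod.inl x)⁻¹ * (Monoid.Coprod.inr y)⁻¹) = 1 :=
        (QuotientGroup.eq_one_iff _).2 (Subgroup.subset_normalClosure ⟨(x, y), ⟨hx, hy⟩, rfl⟩)
      rw [map_mul, map_mul, map_mul, map_inv, map_inv] at this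
      rw [← commutatorElement_eq_one_iff_commute]
      exact this
    have c1 : ∀ x ∈ S, ∀ y : G, Commute (q (Monoid.Coprod.inl x)) (q (Monoid.Coprod.inr y)) := by
      intro x hx y
      have hy : y ∈ Subgroup.closure (S : Set G) := by rw [hS]; trivial
      induction hy using Subgroup.closure_induction with
      | mem s hs => exact c0 x hx s hs
      | one => simp
      | mul a b _ _ ha hb => rw [map_mul, map_mul]; exact ha.mul_right hb
      | inv a _ ha => rw [map_inv, map_inv]; exact ha.inv_right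
    have c2 : ∀ x y : G, Commute (q (Monoid.Coprod.inl x)) (q (Monoid.Coprod.inr y)) := by
      intro x y
      have hx : x ∈ Subgroup.closure (S : Set G) := by rw [hS]; trivial
      induction hx using Subgroup.closure_induction with
      | mem s hs => exact c1 s hs y
      | one => simp
      | mul a b _ _ ha hb => rw [map_mul, map_mul]; exact ha.mul_left hb
      | inv a _ ha => rw [map_inv, map_inv]; exact ha.inv_left
    let ψ : G × G →* Monoid.Coprod G G ⧸ N :=
      MonoidHom.noncommCoprod (q.comp Monoid.Coprod.inl) (q.comp Monoid.Coprod.inr) c2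
    have e : ψ.comp Monoid.Coprod.toProd = q := by
      apply Monoid.Coprod.hom_ext
      · ext x; simp [ψ]
      · ext x; simp [ψ]
    intro w hw
    rw [MonoidHom.mem_ker] at hw
    have : q w = 1 := by rw [← e, MonoidHom.comp_apply, hw, map_one]
    exact (QuotientGroup.eq_one_iff _).1 this

end Pool.Agent.H.MP_9b0338_al
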