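import Mathlib

set_option autoImplicit false

namespace Pool.Agent.H.MP_9b0338_al

variable {G : Type} [Group G]

theorem mem_closure_insert (V : Set G) (x : G) (hx : x * x = 1) (hc : ∀ y ∈ V, Commute x y)
    (α : G) (hα : α ∈ Subgroup.closure (insert x V)) :
    α ∈ Subgroup.closure V ∨ ∃ β ∈ Subgroup.closure V, α = β * x := by
  have hc' : ∀ y ∈ Subgroup.closure V, Commute x y := by
    intro y hy
    induction hy using Subgroup.closure_induction with
    | mem s hs => exact hc s hs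
    | one => simp
    | mul a b _ _ ha hb => exact ha.mul_right hb
    | inv a _ ha => exact ha.inv_right
  have hxi : x⁻¹ = x := by rw [inv_eq_iff_mul_eq_one, hx]
  induction hα using Subgroup.closure_induction with
  | mem s hs =>
    rcases hs with rfl | hs
    · exact Or.inr ⟨1, Subgroup.one_mem _, by simp⟩
    · exact Or.inl (Subgroup.subset_closure hs)
  | one => exact Or.inl (Subgroup.one_mem _)
  | mul a b _ _ ha hb =>
    rcases ha with ha | ⟨a', ha, rfl⟩ <;> rcases hb with hb | ⟨b', hb, rfl⟩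
    · exact Or.inl (Subgroup.mul_mem _ ha hb)
    · exact Or.inr ⟨a * b', Subgroup.mul_mem _ ha hb, by rw [mul_assoc]⟩
    · exact Or.inr ⟨a' * b, Subgroup.mul_mem _ ha hb, by
        rw [mul_assoc, (hc' b hb).eq, mul_assoc]⟩
    · refine Or.inl ?_
      have : a' * x * (b' * x) = a' * b' := by
        rw [mul_assoc, ← mul_assoc x, (hc' b' hb).eq, mul_assoc b', hx, mul_one]
      rw [this]
      exact Subgroup.mul_mem _ ha hb
  | inv a _ ha =>
    rcases ha with ha | ⟨a', ha, rfl⟩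
    · exact Or.inl (Subgroup.inv_mem _ ha)
    · exact Or.inr ⟨a'⁻¹, Subgroup.inv_mem _ ha, by
        rw [mul_inv_rev, hxi, (hc' _ (Subgroup.inv_mem _ ha)).eq]⟩

def Tri (L : ℤ → ℤ → ℤ → G) (n : ℕ) : Set G :=
  {x | ∃ i j k : ℤ, i + j + k = 0 ∧ -(n : ℤ) ≤ i ∧ -(n : ℤ) ≤ j ∧ -(n : ℤ) ≤ k ∧ x = L i j k}

structure Hex (len : G → ℕ) (L M : ℤ → ℤ → ℤ → G) : Prop where
  comm : ∀ i j k i' j' k', Commute (L i j k) (L i' j' k')
  sq : ∀ i j k, L i j k * L i j k = 1
  rel : ∀ (W : Subgroup G) i j k, i + j + k = -1 →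
    (L (i + 1) j k ∈ W → L i (j + 1) k ∈ W → L i j (k + 1) ∈ W) ∧
    (L (i + 1) j k ∈ W → L i j (k + 1) ∈ W → L i (j + 1) k ∈ W) ∧
    (L i (j + 1) k ∈ W → L i j (k + 1) ∈ W → L (i + 1) j k ∈ W)
  base : len (M 0 0 0) = 0
  step : ∀ (α : G) (i j k i' j' k' : ℤ), i + j + k = 0 → i' + j' + k' = 0 →
    |i - i'| ≤ 1 → |j - j'| ≤ 1 → |k - k'| ≤ 1 →
    len (α * M i' j' k') ≤ len (α * M i j k) + 1 ∧
      len (α * L i' j' k' * M i' j' k') ≤ len (α * M i j k) + 1

theorem Hex.swap12 {len : G → ℕ} {L M : ℤ → ℤ → ℤ → G} (H : Hex len L M) :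
    Hex len (fun i j k => L j i k) (fun i j k => M j i k) where
  comm := fun _ _ _ _ _ _ => H.comm _ _ _ _ _ _
  sq := fun _ _ _ => H.sq _ _ _
  rel := fun W i j k h => by
    have := H.rel W j i k (by omega)
    tauto
  base := H.base
  step := fun α i j k i' j' k' h1 h2 h3 h4 h5 =>
    H.step α j i k j' i' k' (by omega) (by omega) h4 h3 h5

theorem Hex.swap13 {len : G → ℕ} {L M : ℤ → ℤ → ℤ → G} (H : Hex len L M) :
    Hex len (fun i j k => L k j i) (fun i j k => M k j i) where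
  comm := fun _ _ _ _ _ _ => H.comm _ _ _ _ _ _
  sq := fun _ _ _ => H.sq _ _ _
  rel := fun W i j k h => by
    have := H.rel W k j i (by omega)
    tauto
  base := H.base
  step := fun α i j k i' j' k' h1 h2 h3 h4 h5 =>
    H.step α k j i k' j' i' (by omega) (by omega) h5 h4 h3

theorem Hex.swap23 {len : G → ℕ} {L M : ℤ → ℤ → ℤ → G} (H : Hex len L M) :
    Hex len (fun i j k => L i k j) (fun i j k => M i k j) where
  comm := fun _ _ _ _ _ _ => H.comm _ _ _ _ _ _
  sq := fun _ _ _ => H.sq _ _ _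
  rel := fun W i j k h => by
    have := H.rel W i k j (by omega)
    tauto
  base := H.base
  step := fun α i j k i' j' k' h1 h2 h3 h4 h5 =>
    H.step α i k j i' k' j' (by omega) (by omega) h3 h5 h4

theorem Tri_swap12 (L : ℤ → ℤ → ℤ → G) (n : ℕ) : Tri (fun i j k => L j i k) n = Tri L n := by
  ext x; constructor
  · rintro ⟨i, j, k, h, a, b, c, e⟩; exact ⟨j, i, k, by omega, b, a, c, e⟩
  · rintro ⟨i, j, k, h, a, b, c, e⟩; exact ⟨j, i, k, by omega, b, a, c, e⟩

theorem Tri_swap13 (L : ℤ → ℤ → ℤ → G) (n : ℕ) : Tri (fun i j k => L k j i) n = Tri L n := by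
  ext x; constructor
  · rintro ⟨i, j, k, h, a, b, c, e⟩; exact ⟨k, j, i, by omega, c, b, a, e⟩
  · rintro ⟨i, j, k, h, a, b, c, e⟩; exact ⟨k, j, i, by omega, c, b, a, e⟩

theorem Tri_swap23 (L : ℤ → ℤ → ℤ → G) (n : ℕ) : Tri (fun i j k => L i k j) n = Tri L n := by
  ext x; constructor
  · rintro ⟨i, j, k, h, a, b, c, e⟩; exact ⟨i, k, j, by omega, a, c, b, e⟩
  · rintro ⟨i, j, k, h, a, b, c, e⟩; exact ⟨i, k, j, by omega, a, c, b, e⟩

/-- every lamp state supported on `V` is reachable in `l` steps with cursor at `(i,j,k)` -/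
def Rch (len : G → ℕ) (L M : ℤ → ℤ → ℤ → G) (l : ℕ) (V : Set G) (i j k : ℤ) : Prop :=
  (∀ x ∈ V, ∃ a b c, x = L a b c) ∧ ∀ α ∈ Subgroup.closure V, len (α * M i j k) ≤ l

theorem Hex.rch_step {len : G → ℕ} {L M : ℤ → ℤ → ℤ → G} (H : Hex len L M) {l : ℕ} {V : Set G}
    {i j k : ℤ} (h : Rch len L M l V i j k) (i' j' k' : ℤ) (h1 : i + j + k = 0)
    (h2 : i' + j' + k' = 0) (h3 : |i - i'| ≤ 1) (h4 : |j - j'| ≤ 1) (h5 : |k - k'| ≤ 1) :
    Rch len L M (l + 1) (insert (L i' j' k') V) i' j' k' := by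
  refine ⟨?_, ?_⟩
  · rintro x (rfl | hx)
    · exact ⟨_, _, _, rfl⟩
    · exact h.1 x hx
  · intro α hα
    rcases mem_closure_insert V _ (H.sq i' j' k') (by
      intro y hy
      obtain ⟨a, b, c, rfl⟩ := h.1 y hy
      exact H.comm _ _ _ _ _ _) α hα with hα | ⟨β, hβ, rfl⟩
    · have := (H.step α i j k i' j' k' h1 h2 h3 h4 h5).1
      have := h.2 α hα
      omega
    · have := (H.step β i j k i' j' k' h1 h2 h3 h4 h5).2
      have := h.2 β hβ
      omega

theorem Hex.rch_seg {len : G → ℕ} {L M : ℤ → ℤ → ℤ → G} (H : Hex len L M) {l : ℕ} {V : Set G}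
    {i j k : ℤ} (h : Rch len L M l V i j k) (h1 : i + j + k = 0) (a b c : ℤ)
    (h2 : a + b + c = 0) (h3 : |a| ≤ 1) (h4 : |b| ≤ 1) (h5 : |c| ≤ 1) (m : ℕ) :
    ∃ V' : Set G, V ⊆ V' ∧ (∀ t : ℤ, 0 < t → t ≤ m → L (i + t * a) (j + t * b) (k + t * c) ∈ V') ∧
      Rch len L M (l + m) V' (i + m * a) (j + m * b) (k + m * c) := by
  induction m with
  | zero => exact ⟨V, subset_rfl, fun t h1 h2 => by omega, by simpa using h⟩
  | succ m ih =>
    obtain ⟨V', s1, s2, s3⟩ := ih
    have := H.rch_step s3 (i + (m + 1 : ℕ) * a) (j + (m + 1 : ℕ) * b) (k + (m + 1 : ℕ) * c)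
      (by linear_combination h1 + m * h2) (by push_cast; linear_combination h1 + (m + 1) * h2)
      (by push_cast; rw [show i + m * a - (i + (m + 1) * a) = -a by ring, abs_neg]; exact h3)
      (by push_cast; rw [show j + m * b - (j + (m + 1) * b) = -b by ring, abs_neg]; exact h4)
      (by push_cast; rw [show k + m * c - (k + (m + 1) * c) = -c by ring, abs_neg]; exact h5)
    refine ⟨_, s1.trans (Set.subset_insert _ _), ?_, this⟩
    intro t t1 t2
    by_cases e : t = (m + 1 : ℕ)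
    · rw [e]; exact Set.mem_insert _ _
    · exact Set.mem_insert_of_mem _ (s2 t t1 (by push_cast at t2 e; omega))

theorem Hex.span {len : G → ℕ} {L M : ℤ → ℤ → ℤ → G} (H : Hex len L M) (n : ℕ) (W : Subgroup G)
    (top : ∀ i j : ℤ, i + j + n = 0 → -(n : ℤ) ≤ i → -(n : ℤ) ≤ j → L i j n ∈ W)
    (lev : ∀ k : ℤ, -(n : ℤ) ≤ k → k ≤ n →
      ∃ i j : ℤ, i + j + k = 0 ∧ -(n : ℤ) ≤ i ∧ -(n : ℤ) ≤ j ∧ L i j k ∈ W) :
    Tri L n ⊆ W := by
  have up : ∀ d : ℕ, ∀ i j : ℤ, i + j + (n + d) = 0 → -(n : ℤ) ≤ i → -(n : ℤ) ≤ j →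
      L i j (n + d) ∈ W := by
    intro d
    induction d with
    | zero => simpa using top
    | succ d ih =>
      intro i j h1 h2 h3
      push_cast at h1 ⊢
      rw [← add_assoc (n : ℤ)]
      exact (H.rel W i j (n + d) (by omega)).1 (ih _ _ (by omega) (by omega) (by omega))
        (ih _ _ (by omega) (by omega) (by omega))
  have down : ∀ d : ℕ, d ≤ 2 * n → ∀ i j : ℤ, i + j + (n - d) = 0 → -(n : ℤ) ≤ i →
      -(n : ℤ) ≤ j → L i j (n - d) ∈ W := by
    intro d
    induction d with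
    | zero => intro _; simpa using top
    | succ d ih =>
      intro hd
      obtain ⟨i0, j0, e0, a0, b0, c0⟩ := lev (n - (d + 1 : ℕ)) (by omega) (by omega)
      push_cast at e0 c0 ⊢
      have ek : (n : ℤ) - (d + 1) + 1 = n - d := by ring
      have r1 : ∀ t : ℕ, -(n : ℤ) ≤ j0 - t → L (i0 + t) (j0 - t) (n - (d + 1)) ∈ W := by
        intro t
        induction t with
        | zero => intro _; simpa using c0
        | succ t iht =>
          intro ht
          push_cast at ht ⊢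
          have := (H.rel W (i0 + t) (j0 - (t + 1)) (n - (d + 1)) (by omega)).2.2
            (by rw [show j0 - (t + 1) + 1 = j0 - t by ring]; exact iht (by omega))
            (by rw [ek]; exact ih (by omega) _ _ (by omega) (by omega) (by omega))
          rwa [add_assoc] at this
      have r2 : ∀ t : ℕ, -(n : ℤ) ≤ i0 - t → L (i0 - t) (j0 + t) (n - (d + 1)) ∈ W := by
        intro t
        induction t with
        | zero => intro _; simpa using c0
        | succ t iht =>
          intro ht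
          push_cast at ht ⊢
          have := (H.rel W (i0 - (t + 1)) (j0 + t) (n - (d + 1)) (by omega)).2.1
            (by rw [show i0 - (t + 1) + 1 = i0 - t by ring]; exact iht (by omega))
            (by rw [ek]; exact ih (by omega) _ _ (by omega) (by omega) (by omega))
          rwa [add_assoc] at this
      intro i j h1 h2 h3
      rcases le_total i0 i with h | h
      · obtain ⟨t, ht⟩ := Int.eq_ofNat_of_zero_le (sub_nonneg.2 h)
        have := r1 t (by omega)
        rwa [show i0 + t = i by omega, show j0 - t = j by omega] at this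
      · obtain ⟨t, ht⟩ := Int.eq_ofNat_of_zero_le (sub_nonneg.2 h)
        have := r2 t (by omega)
        rwa [show i0 - t = i by omega, show j0 + t = j by omega] at this
  rintro _ ⟨i, j, k, h, a, b, c, rfl⟩
  rcases le_total (n : ℤ) k with hk | hk
  · obtain ⟨t, ht⟩ := Int.eq_ofNat_of_zero_le (sub_nonneg.2 hk)
    have := up t i j (by omega) a b
    rwa [show (n : ℤ) + t = k by omega] at this
  · obtain ⟨t, ht⟩ := Int.eq_ofNat_of_zero_le (sub_nonneg.2 hk)
    have := down t (by omega) i j (by omega) a b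
    rwa [show (n : ℤ) - t = k by omega] at this

theorem Hex.exit0 {len : G → ℕ} {L M : ℤ → ℤ → ℤ → G} (H : Hex len L M) (n : ℕ) (i j : ℤ)
    (h : i + j + -(n : ℤ) = 0) (hi : 0 ≤ i) (hj : -(n : ℤ) ≤ j) (α : G)
    (hα : α ∈ Subgroup.closure (Tri L n)) : len (α * M i j (-n)) ≤ 4 * n + 1 := by
  obtain ⟨p, rfl⟩ := Int.eq_ofNat_of_zero_le hi
  obtain ⟨q, hq⟩ := Int.eq_ofNat_of_zero_le (show 0 ≤ j + n by omega)
  have R0 : Rch len L M 0 ∅ 0 0 0 := ⟨by simp, by
    intro α hα
    rw [Subgroup.closure_empty, Subgroup.mem_bot] at hα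
    rw [hα, one_mul, H.base]⟩
  have R1 := H.rch_step R0 0 0 0 (by simp) (by simp) (by simp) (by simp) (by simp)
  obtain ⟨V2, s2, t2, R2⟩ := H.rch_seg R1 (by simp) (-1) 0 1 (by simp) (by simp) (by simp)
    (by simp) n
  obtain ⟨V3, s3, t3, R3⟩ := H.rch_seg R2 (by simp) 1 (-1) 0 (by simp) (by simp) (by simp)
    (by simp) n
  obtain ⟨V4, s4, t4, R4⟩ := H.rch_seg R3 (by simp) 1 0 (-1) (by simp) (by simp) (by simp)
    (by simp) p
  obtain ⟨V5, s5, t5, R5⟩ := H.rch_seg R4 (by simp) 0 1 (-1) (by simp) (by simp) (by simp)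
    (by simp) q
  simp only [mul_one, mul_zero, mul_neg, add_zero, zero_add, neg_add_cancel] at *
  have corner : L (-(n : ℤ)) 0 n ∈ V2 := by
    rcases Nat.eq_zero_or_pos n with rfl | hn
    · exact s2 (by simp)
    · exact t2 n (by omega) le_rfl
  have top : ∀ i j : ℤ, i + j + n = 0 → -(n : ℤ) ≤ i → -(n : ℤ) ≤ j → L i j n ∈ V3 := by
    intro i j h1 h2 h3
    rcases eq_or_lt_of_le h2 with e | e
    · have := s3 corner
      rwa [show j = 0 by omega, ← e]
    · have := t3 (i + n) (by omega) (by omega)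
      rwa [show -(n : ℤ) + (i + n) = i by omega, show -(i + n) = j by omega] at this
  have sub : Tri L n ⊆ Subgroup.closure V5 := by
    apply H.span n
    · intro i j h1 h2 h3
      exact Subgroup.subset_closure (s5 (s4 (top i j h1 h2 h3)))
    · intro k k1 k2
      rcases eq_or_lt_of_le k2 with e | e
      · exact ⟨0, -n, by omega, by omega, by omega,
          Subgroup.subset_closure (by rw [e]; exact s5 (s4 (top _ _ (by omega) (by omega) le_rfl)))⟩
      · rcases le_or_gt (n - k) p with e2 | e2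
        · refine ⟨n - k, -n, by omega, by omega, by omega, Subgroup.subset_closure (s5 ?_)⟩
          have := t4 (n - k) (by omega) e2
          rwa [show (n : ℤ) + -(n - k) = k by omega] at this
        · refine ⟨p, -n + (n - k - p), by omega, by omega, by omega, Subgroup.subset_closure ?_⟩
          have := t5 (n - k - p) (by omega) (by omega)
          rwa [show (n : ℤ) + -p + -(n - k - p) = k by omega] at this
  have := R5.2 α ((Subgroup.closure_le _).2 sub hα)
  rw [show -(n : ℤ) + q = j by omega, show (n : ℤ) + -p + -q = -n by omega] at this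
  omega

theorem Hex.exit1 {len : G → ℕ} {L M : ℤ → ℤ → ℤ → G} (H : Hex len L M) (n : ℕ) (i j : ℤ)
    (h : i + j + -(n : ℤ) = 0) (hi : -(n : ℤ) ≤ i) (hj : -(n : ℤ) ≤ j) (α : G)
    (hα : α ∈ Subgroup.closure (Tri L n)) : len (α * M i j (-n)) ≤ 4 * n + 1 := by
  rcases le_total 0 i with e | e
  · exact H.exit0 n i j h e hj α hα
  · exact H.swap12.exit0 n j i (by omega) (by omega) hi α (by rwa [Tri_swap12])

theorem Hex.exit {len : G → ℕ} {L M : ℤ → ℤ → ℤ → G} (H : Hex len L M) (n : ℕ) (i j k : ℤ)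
    (h : i + j + k = 0) (hi : -(n : ℤ) ≤ i) (hj : -(n : ℤ) ≤ j) (hk : -(n : ℤ) ≤ k)
    (he : i = -n ∨ j = -n ∨ k = -n) (α : G)
    (hα : α ∈ Subgroup.closure (Tri L n)) : len (α * M i j k) ≤ 4 * n + 1 := by
  rcases he with rfl | rfl | rfl
  · exact H.swap13.exit1 n k j (by omega) hk hj α (by rwa [Tri_swap13])
  · exact H.swap23.exit1 n i k (by omega) hi hk α (by rwa [Tri_swap23])
  · exact H.exit1 n i j h hi hj α hα

theorem Hex.bound {len : G → ℕ} {L M : ℤ → ℤ → ℤ → G} (H : Hex len L M) (n : ℕ) (α : G)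
    (hα : α ∈ Subgroup.closure (Tri L n)) (d : ℕ) : ∀ i j k : ℤ,
    i + j + k = 0 → -(n : ℤ) ≤ i → -(n : ℤ) ≤ j → k = -n + d →
    len (α * M i j k) ≤ 4 * n + 1 + d := by
  induction d with
  | zero =>
    intro i j k h hi hj hk
    exact H.exit n i j k h hi hj (by omega) (by omega) α hα
  | succ d ih =>
    intro i j k h hi hj hk
    have := ih (i + 1) j (k - 1) (by omega) (by omega) hj (by omega)
    have := (H.step α (i + 1) j (k - 1) i j k (by omega) h (by simp) (by simp) (by simp)).1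
    omega

end Pool.Agent.H.MP_9b0338_al
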