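import Pool.Agent.H.MP_9b0338_al.A
import Pool.Agent.H.MP_9b0338_al.B

set_option autoImplicit false

namespace Pool.Agent.H.MP_9b0338_al

variable {G : Type} [Group G]

structure Bau (a s t : G) : Prop where
  aa : a * a = 1
  st : Commute s t
  c1 : Commute a (t * a * t⁻¹)
  sa : s * a * s⁻¹ = a * (t * a * t⁻¹)

def M2 (s t : G) (i j : ℤ) : G := t ^ i * s ^ j

def L2 (a s t : G) (i j : ℤ) : G := M2 s t i j * a * (M2 s t i j)⁻¹

section
variable {a s t : G}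

theorem Bau.M_add (H : Bau a s t) (i j i' j' : ℤ) :
    M2 s t (i + i') (j + j') = M2 s t i j * M2 s t i' j' := by
  unfold M2
  rw [zpow_add, zpow_add, mul_assoc, mul_assoc, ← mul_assoc (t ^ i'), ← mul_assoc (s ^ j),
    (H.st.zpow_zpow j i').eq]

theorem M_zero (s t : G) : M2 s t 0 0 = 1 := by simp [M2]

theorem Bau.L_add (H : Bau a s t) (i j i' j' : ℤ) :
    L2 a s t (i + i') (j + j') = M2 s t i j * L2 a s t i' j' * (M2 s t i j)⁻¹ := by
  unfold L2
  rw [H.M_add]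
  group

theorem L_zero (a s t : G) : L2 a s t 0 0 = a := by simp [L2, M2]

theorem Bau.L_rel (H : Bau a s t) (i j : ℤ) :
    L2 a s t i (j + 1) = L2 a s t i j * L2 a s t (i + 1) j := by
  have e1 := H.L_add i j 0 1
  have e2 := H.L_add i j 1 0
  have e3 := H.L_add i j 0 0
  simp only [add_zero] at e1 e2 e3
  have : L2 a s t 0 1 = L2 a s t 0 0 * L2 a s t 1 0 := by
    simpa [L2, M2] using H.sa
  rw [e1, e2, this]
  conv_rhs => rw [e3]
  group

theorem Bau.L_sq (H : Bau a s t) (i j : ℤ) : L2 a s t i j * L2 a s t i j = 1 := by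
  unfold L2
  have : M2 s t i j * a * (M2 s t i j)⁻¹ * (M2 s t i j * a * (M2 s t i j)⁻¹) =
      M2 s t i j * (a * a) * (M2 s t i j)⁻¹ := by group
  rw [this, H.aa]; group

theorem Bau.shift (H : Bau a s t) {i j i' j' : ℤ} (h : Commute (L2 a s t i j) (L2 a s t i' j'))
    (p q : ℤ) : Commute (L2 a s t (p + i) (q + j)) (L2 a s t (p + i') (q + j')) := by
  rw [H.L_add, H.L_add]
  exact h.conj _

theorem Bau.comm0 (H : Bau a s t) (n : ℕ) :
    ∀ m : ℕ, m ≤ n + 1 → Commute (L2 a s t 0 0) (L2 a s t m 0) := by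
  induction n with
  | zero =>
    intro m hm
    rcases Nat.eq_zero_or_pos m with rfl | h
    · exact Commute.refl _
    · obtain rfl : m = 1 := by omega
      simpa [L2, M2] using H.c1
  | succ n ih =>
    intro m hm
    rcases Nat.lt_or_ge m (n + 2) with h | h
    · exact ih m (by omega)
    obtain rfl : m = n + 2 := by omega
    have a1 := H.shift (ih (n + 1) le_rfl) 0 1
    simp only [zero_add, add_zero] at a1
    have r1 := H.L_rel 0 0
    have r2 := H.L_rel ((n + 1 : ℕ) : ℤ) 0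
    simp only [zero_add] at r1 r2
    rw [r1, r2] at a1
    have b1 := H.shift (ih n (by omega)) 1 0
    have b2 := H.shift (ih (n + 1) le_rfl) 1 0
    simp only [add_zero] at b1 b2
    rw [show (1 : ℤ) + n = ((n + 1 : ℕ) : ℤ) by push_cast; ring] at b1
    rw [show (1 : ℤ) + ((n + 1 : ℕ) : ℤ) = ((n + 1 : ℕ) : ℤ) + 1 by ring] at b2
    have b3 := b1.mul_right b2
    have b4 : Commute (L2 a s t 0 0)
        (L2 a s t ((n + 1 : ℕ) : ℤ) 0 * L2 a s t (((n + 1 : ℕ) : ℤ) + 1) 0) := by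
      have := a1.mul_left b3.inv_left
      rwa [mul_inv_cancel_right] at this
    have b5 := (ih (n + 1) le_rfl).inv_right.mul_right b4
    rw [inv_mul_cancel_left] at b5
    rw [show ((n + 2 : ℕ) : ℤ) = ((n + 1 : ℕ) : ℤ) + 1 by push_cast; ring]
    exact b5

theorem Bau.comm1 (H : Bau a s t) (i i' : ℤ) : Commute (L2 a s t i 0) (L2 a s t i' 0) := by
  have key : ∀ i i' : ℤ, i ≤ i' → Commute (L2 a s t i 0) (L2 a s t i' 0) := by
    intro i i' h
    obtain ⟨m, hm⟩ := Int.eq_ofNat_of_zero_le (sub_nonneg.2 h)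
    have := H.shift (H.comm0 m m (by omega)) i 0
    simp only [add_zero] at this
    rwa [show i + m = i' by omega] at this
  rcases le_total i i' with h | h
  · exact key i i' h
  · exact (key i' i h).symm

theorem Bau.comm2 (H : Bau a s t) (m : ℕ) :
    ∀ i i' : ℤ, Commute (L2 a s t i 0) (L2 a s t i' m) := by
  induction m with
  | zero => exact H.comm1
  | succ m ih =>
    intro i i'
    push_cast
    rw [H.L_rel]
    exact (ih _ _).mul_right (ih _ _)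

theorem Bau.comm (H : Bau a s t) (i j i' j' : ℤ) : Commute (L2 a s t i j) (L2 a s t i' j') := by
  have key : ∀ i j i' j' : ℤ, j ≤ j' → Commute (L2 a s t i j) (L2 a s t i' j') := by
    intro i j i' j' h
    obtain ⟨m, hm⟩ := Int.eq_ofNat_of_zero_le (sub_nonneg.2 h)
    have := H.shift (H.comm2 m i i') 0 j
    simp only [add_zero, zero_add] at this
    rwa [show j + m = j' by omega] at this
  rcases le_total j j' with h | h
  · exact key _ _ _ _ h
  · exact (key _ _ _ _ h).symm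

end

open Classical in
noncomputable def Gen (a s t : G) : Finset G :=
  (((Finset.Icc (-1 : ℤ) 1 ×ˢ Finset.Icc (-1 : ℤ) 1).filter (fun z => |z.1 + z.2| ≤ 1)).image
    (fun z => M2 s t z.1 z.2)) ∪
  (((Finset.Icc (-1 : ℤ) 1 ×ˢ Finset.Icc (-1 : ℤ) 1).filter (fun z => |z.1 + z.2| ≤ 1)).image
    (fun z => M2 s t z.1 z.2 * a))

theorem mem_Gen (a s t x : G) : x ∈ Gen a s t ↔
    ∃ i j : ℤ, |i| ≤ 1 ∧ |j| ≤ 1 ∧ |i + j| ≤ 1 ∧ (x = M2 s t i j ∨ x = M2 s t i j * a) := by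
  classical
  unfold Gen
  simp only [Finset.mem_union, Finset.mem_image, Finset.mem_filter, Finset.mem_product,
    Finset.mem_Icc, Prod.exists]
  constructor
  · rintro (⟨i, j, ⟨⟨h1, h2⟩, h3⟩, rfl⟩ | ⟨i, j, ⟨⟨h1, h2⟩, h3⟩, rfl⟩)
    · exact ⟨i, j, abs_le.2 h1, abs_le.2 h2, h3, Or.inl rfl⟩
    · exact ⟨i, j, abs_le.2 h1, abs_le.2 h2, h3, Or.inr rfl⟩
  · rintro ⟨i, j, h1, h2, h3, rfl | rfl⟩
    · exact Or.inl ⟨i, j, ⟨⟨abs_le.1 h1, abs_le.1 h2⟩, h3⟩, rfl⟩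
    · exact Or.inr ⟨i, j, ⟨⟨abs_le.1 h1, abs_le.1 h2⟩, h3⟩, rfl⟩

theorem Bau.hex {a s t : G} (H : Bau a s t)
    (hS : Subgroup.closure (Gen a s t : Set G) = ⊤) :
    Hex (len (Gen a s t)) (fun i j _ => L2 a s t i j) (fun i j _ => M2 s t i j) where
  comm := fun _ _ _ _ _ _ => H.comm _ _ _ _
  sq := fun _ _ _ => H.L_sq _ _
  rel := by
    intro W i j k _
    simp only [H.L_rel]
    refine ⟨fun h1 h2 => ?_, fun h1 h2 => W.mul_mem h2 h1, fun h1 h2 => ?_⟩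
    · simpa using W.mul_mem h2 (W.inv_mem h1)
    · simpa using W.mul_mem (W.inv_mem h2) h1
  base := by simp only [M_zero]; exact len_one _
  step := by
    intro α i j k i' j' k' h1 h2 h3 h4 h5
    have e : M2 s t i' j' = M2 s t i j * M2 s t (i' - i) (j' - j) := by
      rw [← H.M_add]; congr 1 <;> ring
    have b1 : |i' - i| ≤ 1 := by rwa [abs_sub_comm]
    have b2 : |j' - j| ≤ 1 := by rwa [abs_sub_comm]
    have b3 : |i' - i + (j' - j)| ≤ 1 := by
      rwa [show i' - i + (j' - j) = k - k' by omega]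
    constructor
    · apply len_step _ hS
      left
      rw [mem_Gen]
      refine ⟨_, _, b1, b2, b3, Or.inl ?_⟩
      rw [e]; group
    · apply len_step _ hS
      left
      rw [mem_Gen]
      refine ⟨_, _, b1, b2, b3, Or.inr ?_⟩
      unfold L2
      rw [e]; group

def Box (a s t : G) (n : ℕ) : Set G :=
  {g | ∃ α ∈ Subgroup.closure (Tri (fun i j _ => L2 a s t i j) n), ∃ i j : ℤ,
    -(n : ℤ) ≤ i ∧ -(n : ℤ) ≤ j ∧ i + j ≤ n ∧ g = α * M2 s t i j}

theorem Bau.box_bound {a s t : G} (H : Bau a s t)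
    (hS : Subgroup.closure (Gen a s t : Set G) = ⊤) (n : ℕ) (g : G) (hg : g ∈ Box a s t n) :
    len (Gen a s t) g ≤ 7 * n + 1 := by
  obtain ⟨α, hα, i, j, h1, h2, h3, rfl⟩ := hg
  obtain ⟨d, hd⟩ := Int.eq_ofNat_of_zero_le (show 0 ≤ n - i - j by omega)
  have := (H.hex hS).bound n α hα d i j (-i - j) (by omega) h1 h2 (by omega)
  omega

theorem Bau.box_exit {a s t : G} (H : Bau a s t)
    (hS : Subgroup.closure (Gen a s t : Set G) = ⊤) (n : ℕ) (u : G) (hu : u ∈ Box a s t n)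
    (v : G) (huv : u⁻¹ * v ∈ Gen a s t ∨ v⁻¹ * u ∈ Gen a s t) (hv : v ∉ Box a s t n) :
    len (Gen a s t) u ≤ 4 * n + 1 := by
  obtain ⟨α, hα, i, j, h1, h2, h3, rfl⟩ := hu
  by_cases he : i = -n ∨ j = -n ∨ -i - j = -n
  · exact (H.hex hS).exit n i j (-i - j) (by omega) h1 h2 (by omega) he α hα
  exfalso
  apply hv
  have mem : ∀ i j : ℤ, -(n : ℤ) ≤ i → -(n : ℤ) ≤ j → i + j ≤ n →
      α * L2 a s t i j ∈ Subgroup.closure (Tri (fun i j _ => L2 a s t i j) n) := by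
    intro i j a1 a2 a3
    exact Subgroup.mul_mem _ hα
      (Subgroup.subset_closure ⟨i, j, -i - j, by omega, a1, a2, by omega, rfl⟩)
  rw [mem_Gen, mem_Gen] at huv
  rcases huv with ⟨p, q, c1, c2, c3, e | e⟩ | ⟨p, q, c1, c2, c3, e | e⟩ <;>
    rw [abs_le] at c1 c2 c3
  · refine ⟨α, hα, i + p, j + q, by omega, by omega, by omega, ?_⟩
    rw [H.M_add, ← mul_assoc, ← e]; group
  · refine ⟨_, mem (i + p) (j + q) (by omega) (by omega) (by omega), i + p, j + q,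
      by omega, by omega, by omega, ?_⟩
    have : v = α * M2 s t i j * (M2 s t p q * a) := by rw [← e]; group
    rw [this]
    unfold L2
    rw [H.M_add]; group
  · refine ⟨α, hα, i - p, j - q, by omega, by omega, by omega, ?_⟩
    have e2 : M2 s t i j = M2 s t (i - p) (j - q) * M2 s t p q := by
      rw [← H.M_add]; congr 1 <;> ring
    have : v = α * M2 s t i j * (M2 s t p q)⁻¹ := by rw [← e]; group
    rw [this, e2]; group
  · refine ⟨_, mem i j h1 h2 h3, i - p, j - q, by omega, by omega, by omega, ?_⟩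
    have e2 : M2 s t i j = M2 s t (i - p) (j - q) * M2 s t p q := by
      rw [← H.M_add]; congr 1 <;> ring
    have : v = α * M2 s t i j * (M2 s t p q * a)⁻¹ := by rw [← e]; group
    have ai : a⁻¹ = a := by rw [inv_eq_iff_mul_eq_one, H.aa]
    rw [this, mul_inv_rev, ai]
    unfold L2
    rw [e2]; group

theorem lip (f : ℕ → ℤ) (h : ∀ m, |f (m + 1) - f m| ≤ 1) (u w : ℕ) (huw : u ≤ w) :
    |f w - f u| ≤ (w : ℤ) - u := by
  obtain ⟨d, rfl⟩ := Nat.exists_eq_add_of_le huw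
  induction d with
  | zero => simp
  | succ d ih =>
    have h1 := ih (by omega)
    have h2 := h (u + d)
    rw [abs_le] at *
    rw [← add_assoc]
    push_cast at *
    constructor <;> omega

theorem five0 (f1 f2 f3 : ℕ → ℤ) (n l t1 t2 t3 : ℕ) (hs : ∀ m, f1 m + f2 m + f3 m = 0)
    (h1 : ∀ m, |f1 (m + 1) - f1 m| ≤ 1) (h3 : ∀ m, |f3 (m + 1) - f3 m| ≤ 1)
    (z1 : f1 0 = 0) (z3 : f3 l = 0) (o1 : t1 ≤ t2) (o2 : t2 ≤ t3) (o3 : t3 ≤ l)
    (a1 : f1 t1 ≤ -n) (a2 : f2 t2 ≤ -n) (a3 : f3 t3 ≤ -n) : 5 * n ≤ l := by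
  have b1 := abs_le.1 (lip f1 h1 0 t1 (by omega))
  have b2 := abs_le.1 (lip f1 h1 t1 t2 o1)
  have b3 := abs_le.1 (lip f3 h3 t2 t3 o2)
  have b4 := abs_le.1 (lip f3 h3 t3 l o3)
  have := hs t2
  omega

theorem five (f1 f2 f3 : ℕ → ℤ) (n l t1 t2 t3 : ℕ) (hs : ∀ m, f1 m + f2 m + f3 m = 0)
    (h1 : ∀ m, |f1 (m + 1) - f1 m| ≤ 1) (h2 : ∀ m, |f2 (m + 1) - f2 m| ≤ 1)
    (h3 : ∀ m, |f3 (m + 1) - f3 m| ≤ 1)
    (z1 : f1 0 = 0) (z2 : f2 0 = 0) (z3 : f3 0 = 0)
    (w1 : f1 l = 0) (w2 : f2 l = 0) (w3 : f3 l = 0)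
    (o1 : t1 ≤ l) (o2 : t2 ≤ l) (o3 : t3 ≤ l)
    (a1 : f1 t1 ≤ -n) (a2 : f2 t2 ≤ -n) (a3 : f3 t3 ≤ -n) : 5 * n ≤ l := by
  rcases le_total t1 t2 with p | p <;> rcases le_total t2 t3 with q | q <;>
    rcases le_total t1 t3 with r | r
  · exact five0 f1 f2 f3 n l t1 t2 t3 hs h1 h3 z1 w3 p q o3 a1 a2 a3
  · exact five0 f1 f2 f3 n l t1 t2 t3 hs h1 h3 z1 w3 p q o3 a1 a2 a3
  · exact five0 f1 f3 f2 n l t1 t3 t2 (fun m => by have := hs m; omega) h1 h2 z1 w2 r q o2 a1 a3 a2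
  · exact five0 f3 f1 f2 n l t3 t1 t2 (fun m => by have := hs m; omega) h3 h2 z3 w2 r p o2 a3 a1 a2
  · exact five0 f2 f1 f3 n l t2 t1 t3 (fun m => by have := hs m; omega) h2 h3 z2 w3 p r o3 a2 a1 a3
  · exact five0 f2 f3 f1 n l t2 t3 t1 (fun m => by have := hs m; omega) h2 h1 z2 w1 q r o1 a2 a3 a1
  · exact five0 f3 f2 f1 n l t3 t2 t1 (fun m => by have := hs m; omega) h3 h1 z3 w1 q p o1 a3 a2 a1
  · exact five0 f3 f2 f1 n l t3 t2 t1 (fun m => by have := hs m; omega) h3 h1 z3 w1 q p o1 a3 a2 a1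

end Pool.Agent.H.MP_9b0338_al
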